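import Mathlib
import Pool.Agent.H922R2.OPC.Stubs

set_option autoImplicit false

open MvPolynomial

namespace Pool.Agent.H245OPC

open Pool.Agent.H922R2.OPC

lemma tp_pow {k : Type} [Field k] (a : ℤ) (m : ℕ) : (tp a : L k) ^ m = tp (m * a) := by
  unfold tp
  rw [HahnSeries.single_pow]
  simp

lemma lam_pow {k : Type} [Field k] (m : ℕ) :
    (lam : L k) ^ m = HahnSeries.single 0 (Polynomial.X ^ m) := by
  unfold lam
  rw [HahnSeries.single_pow]
  simp

/-- the subalgebra `k[t^(-n), λ]` is a polynomial ring -/
lemma coeff_key {k : Type} [Field k] (n : ℕ) (hn : 0 < n) (g : B k) (m : Fin 2 →₀ ℕ) :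
    ((aeval ![(tp (-(n : ℤ)) : L k), lam] g).coeff ((m 0 : ℤ) * (-(n : ℤ)))).coeff (m 1) =
      MvPolynomial.coeff m g := by
  induction g using MvPolynomial.induction_on' with
  | monomial u a =>
    rw [aeval_monomial, MvPolynomial.coeff_monomial]
    rw [Finsupp.prod_fintype _ _ (by intro i; simp), Fin.prod_univ_two]
    simp only [Matrix.cons_val_zero, Matrix.cons_val_one]
    rw [tp_pow, lam_pow]
    unfold tp
    rw [HahnSeries.single_mul_single, add_zero, one_mul]
    have halg : algebraMap k (L k) a = HahnSeries.single 0 (Polynomial.C a) := by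
      rw [HahnSeries.algebraMap_apply', PowerSeries.algebraMap_apply, HahnSeries.ofPowerSeries_C]
      rfl
    rw [halg, HahnSeries.single_mul_single, zero_add, HahnSeries.coeff_single]
    by_cases hu : u = m
    · subst hu
      simp
    · rw [if_neg hu]
      by_cases h0 : u 0 = m 0
      · have h1 : u 1 ≠ m 1 := by
          intro h1
          apply hu
          ext i
          fin_cases i
          · exact h0
          · exact h1
        rw [h0, if_pos rfl]
        rw [Polynomial.coeff_C_mul, Polynomial.coeff_X_pow, if_neg (Ne.symm h1), mul_zero]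
      · have h0' : ¬ ((m 0 : ℤ) * (-(n : ℤ)) = (u 0 : ℤ) * (-(n : ℤ))) := by
          intro h
          apply h0
          have hn' : (-(n : ℤ)) ≠ 0 := by omega
          have := mul_right_cancel₀ hn' h
          exact_mod_cast this.symm
        rw [if_neg h0']
        simp
  | add p q hp hq =>
    rw [map_add, HahnSeries.coeff_add, Polynomial.coeff_add, hp, hq, MvPolynomial.coeff_add]

lemma key_inj {k : Type} [Field k] (n : ℕ) (hn : 0 < n) (g : B k)
    (hg : aeval ![(tp (-(n : ℤ)) : L k), lam] g = 0) : g = 0 := by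
  ext m
  rw [← coeff_key n hn g m, hg]
  simp

theorem inj (k : Type) [Field k] [IsAlgClosed k] [CharZero k] : S_INJ k := by
  intro hEVF hMON n f φ ζ hOP
  have hn : 0 < n := hOP.1
  have hf : ev n φ f = lam := hEVF n f φ ζ hOP
  obtain ⟨a, ha⟩ := hMON n f φ ζ hOP
  let ψ : B k →ₐ[k] B k := aeval ![X 0, f]
  have hψ0 : ψ (X 0) = X 0 := by simp [ψ]
  have hψ1 : ψ (X 1) = f := by simp [ψ]
  -- the composition
  have hcomp : ∀ g : B k, ev n φ (ψ g) = aeval ![(tp (-(n : ℤ)) : L k), lam] g := by
    intro g
    have : (ev n φ).comp ψ = aeval ![(tp (-(n : ℤ)) : L k), lam] := by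
      apply MvPolynomial.algHom_ext
      intro i
      fin_cases i
      · simp [ψ, ev]
      · simp only [AlgHom.comp_apply]
        rw [show ψ (X ((fun i => i) ⟨1, by norm_num⟩)) = f from hψ1, hf]
        simp
    rw [← AlgHom.comp_apply, this]
  -- integrality
  have hX1 : ψ.toRingHom.IsIntegralElem (X 1) := by
    refine ⟨Polynomial.X ^ n + (∑ j ∈ Finset.range n,
      Polynomial.C (Polynomial.aeval (X 0 : B k) (a j)) * Polynomial.X ^ j
        - Polynomial.C (X 1)), ?_, ?_⟩
    · apply Polynomial.monic_X_pow_add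
      refine lt_of_le_of_lt (Polynomial.degree_sub_le _ _) (max_lt ?_ ?_)
      · refine lt_of_le_of_lt (Polynomial.degree_sum_le _ _) ?_
        rw [Finset.sup_lt_iff (by exact WithBot.bot_lt_coe n)]
        intro j hj
        refine lt_of_le_of_lt (Polynomial.degree_C_mul_X_pow_le _ _) ?_
        exact_mod_cast Finset.mem_range.mp hj
      · refine lt_of_le_of_lt Polynomial.degree_C_le ?_
        exact_mod_cast hn
    · have h3 : ∀ j, ψ (Polynomial.aeval (X 0 : B k) (a j)) =
          Polynomial.aeval (X 0 : B k) (a j) := by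
        intro j
        rw [← Polynomial.aeval_algHom_apply, hψ0]
      simp only [Polynomial.eval₂_add, Polynomial.eval₂_sub, Polynomial.eval₂_pow,
        Polynomial.eval₂_X, Polynomial.eval₂_finsetSum, Polynomial.eval₂_mul,
        Polynomial.eval₂_C]
      have h4 : ∀ z : B k, ψ.toRingHom z = ψ z := fun z => rfl
      simp only [h4, h3, hψ1]
      rw [← add_sub_assoc]
      rw [sub_eq_zero]
      exact ha.symm
  have hint : ∀ h : B k, ψ.toRingHom.IsIntegralElem h := by
    intro h
    induction h using MvPolynomial.induction_on with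
    | C c =>
      have : (C c : B k) = ψ.toRingHom (C c) := by
        change _ = ψ (C c)
        simp [ψ]
      rw [this]
      exact RingHom.isIntegralElem_map _
    | add p q hp hq => exact RingHom.IsIntegralElem.add _ hp hq
    | mul_X p i hp =>
      refine RingHom.IsIntegralElem.mul _ hp ?_
      fin_cases i
      · have : (X 0 : B k) = ψ.toRingHom (X 0) := hψ0.symm
        change ψ.toRingHom.IsIntegralElem (X 0 : B k)
        rw [this]
        exact RingHom.isIntegralElem_map _
      · exact hX1
  rw [injective_iff_map_eq_zero]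
  intro h hh
  by_contra hne
  obtain ⟨p, hp, hp0⟩ := hint h
  have hI : h ∈ RingHom.ker (ev n φ).toRingHom := hh
  have : (RingHom.ker (ev n φ).toRingHom).IsPrime := RingHom.ker_isPrime _
  have hne2 : (RingHom.ker (ev n φ).toRingHom).comap ψ.toRingHom ≠ ⊥ :=
    Ideal.comap_ne_bot_of_root_mem hne hI hp.ne_zero hp0
  apply hne2
  rw [eq_bot_iff]
  intro g hg
  have hg' : ev n φ (ψ g) = 0 := hg
  rw [hcomp] at hg'
  exact key_inj n hn g hg'

end Pool.Agent.H245OPC
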